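import Pool.Agent.R737.PK.Stm

/-!
# Peak polynomials: piece STEP
-/

set_option autoImplicit false

open Polynomial

namespace Pool.Agent.R868.PK

open Pool.Agent.R737.PK

/-- `∫ s ^ z f(s) ds` -/
noncomputable def phi (z : ℝ) : ℝ[X] →ₗ[ℝ] ℝ :=
  Polynomial.lsum fun l => (z + l + 1)⁻¹ • LinearMap.id

theorem phi_apply (z : ℝ) (f : ℝ[X]) : phi z f = f.sum fun l a => (z + l + 1)⁻¹ * a := by
  simp [phi, Polynomial.lsum_apply]

theorem phi_monomial (z : ℝ) (l : ℕ) (a : ℝ) : phi z (monomial l a) = (z + l + 1)⁻¹ * a := by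
  rw [phi_apply, Polynomial.sum_monomial_index]
  simp

theorem phi_C (z : ℝ) (a : ℝ) : phi z (C a) = (z + 1)⁻¹ * a := by
  have := phi_monomial z 0 a
  rw [monomial_zero_left] at this
  simpa using this

theorem phi_C_mul (z c : ℝ) (f : ℝ[X]) : phi z (C c * f) = c * phi z f := by
  rw [← smul_eq_C_mul, map_smul, smul_eq_mul]

/-! ### The antiderivative -/

theorem anti_add (f g : ℝ[X]) : anti (f + g) = anti f + anti g := by
  unfold anti
  rw [Polynomial.sum_add_index]
  · intro i; simp
  · intro l a b; rw [add_div, map_add]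

theorem anti_C_mul (c : ℝ) (f : ℝ[X]) : anti (C c * f) = C c * anti f := by
  induction f using Polynomial.induction_on' with
  | add p q hp hq => rw [mul_add, anti_add, anti_add, hp, hq, mul_add]
  | monomial n a =>
    rw [C_mul_monomial]
    unfold anti
    rw [Polynomial.sum_monomial_index _ _ (by simp), Polynomial.sum_monomial_index _ _ (by simp),
      C_mul_monomial, mul_div_assoc]

theorem anti_monomial (l : ℕ) (a : ℝ) : anti (monomial l a) = monomial (l + 1) (a / (l + 1)) := by
  unfold anti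
  rw [Polynomial.sum_monomial_index _ _ (by simp)]

theorem derivative_anti (f : ℝ[X]) : derivative (anti f) = f := by
  induction f using Polynomial.induction_on' with
  | add p q hp hq => rw [anti_add, derivative_add, hp, hq]
  | monomial n a =>
    rw [anti_monomial, derivative_monomial]
    congr 1
    have : (n : ℝ) + 1 ≠ 0 := by positivity
    push_cast
    field_simp

theorem anti_eval_zero (f : ℝ[X]) : (anti f).eval 0 = 0 := by
  induction f using Polynomial.induction_on' with
  | add p q hp hq => rw [anti_add, eval_add, hp, hq, add_zero]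
  | monomial n a => rw [anti_monomial, eval_monomial]; simp

theorem anti_eval_one (f : ℝ[X]) : (anti f).eval 1 = phi 0 f := by
  induction f using Polynomial.induction_on' with
  | add p q hp hq => rw [anti_add, eval_add, hp, hq, map_add]
  | monomial n a =>
    rw [anti_monomial, eval_monomial, phi_monomial]
    simp only [one_pow, mul_one, zero_add]
    ring

theorem J_add (f g : ℝ[X]) : J (f + g) = J f + J g := by
  unfold J
  rw [anti_add, eval_add, C_add]
  ring

theorem J_C_mul (c : ℝ) (f : ℝ[X]) : J (C c * f) = C c * J f := by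
  unfold J
  rw [anti_C_mul, eval_mul, eval_C, C_mul]
  ring

theorem J_sub (f g : ℝ[X]) : J (f - g) = J f - J g := by
  have h : f - g = f + C (-1) * g := by simp [sub_eq_add_neg]
  rw [h, J_add, J_C_mul]
  simp [sub_eq_add_neg]

theorem derivative_J (f : ℝ[X]) : derivative (J f) = -f := by
  unfold J
  rw [derivative_sub, derivative_C, derivative_anti, zero_sub]

theorem J_eval_one (f : ℝ[X]) : (J f).eval 1 = 0 := by
  unfold J
  simp

theorem J_eval_zero (f : ℝ[X]) : (J f).eval 0 = phi 0 f := by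
  unfold J
  rw [eval_sub, eval_C, anti_eval_zero, sub_zero, anti_eval_one]

/-- two polynomials with the same derivative and a common value are equal -/
theorem eq_of_derivative {f g : ℝ[X]} (h : derivative f = derivative g) (a : ℝ)
    (ha : f.eval a = g.eval a) : f = g := by
  have h1 : derivative (f - g) = 0 := by rw [derivative_sub, h, sub_self]
  have h2 := derivative_eq_zero.1 h1
  obtain ⟨c, hc⟩ := natDegree_eq_zero.1 h2
  have h3 : (f - g).eval a = 0 := by rw [eval_sub, ha, sub_self]
  rw [← hc, eval_C] at h3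
  rw [h3, C_0] at hc
  exact sub_eq_zero.1 hc.symm

theorem derivative_refl (f : ℝ[X]) :
    derivative (f.comp (1 - X)) = -(derivative f).comp (1 - X) := by
  rw [derivative_comp]
  simp

theorem J_refl (f : ℝ[X]) : J (f.comp (1 - X)) = C ((J f).eval 0) - (J f).comp (1 - X) := by
  apply eq_of_derivative _ 1
  · rw [J_eval_one, eval_sub, eval_C, eval_comp]
    simp
  · rw [derivative_J, derivative_sub, derivative_C, derivative_refl, derivative_J]
    simp

theorem J_symm (ρ : ℝ[X]) (h : ∀ s : ℝ, ρ.eval (1 - s) = - ρ.eval s) :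
    (J ρ).comp (1 - X) = J ρ := by
  have h1 : ρ.comp (1 - X) = -ρ := by
    apply Polynomial.funext
    intro s
    rw [eval_comp, eval_neg, ← h s]
    simp
  apply eq_of_derivative _ (1 / 2)
  · rw [eval_comp]
    norm_num
  · rw [derivative_refl, derivative_J]
    simp [h1]

theorem phi_J (z : ℝ) (hz : 0 ≤ z) (f : ℝ[X]) : phi z (J f) = (z + 1)⁻¹ * phi (z + 1) f := by
  induction f using Polynomial.induction_on' with
  | add p q hp hq => rw [J_add, map_add, map_add, hp, hq, mul_add]
  | monomial n a =>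
    unfold J
    rw [anti_monomial, map_sub, phi_C, phi_monomial, phi_monomial, eval_monomial]
    have h1 : z + 1 ≠ 0 := by positivity
    have h2 : z + 1 + n + 1 ≠ 0 := by positivity
    have h3 : (n : ℝ) + 1 ≠ 0 := by positivity
    have h4 : z + (n + 1) + 1 ≠ 0 := by positivity
    push_cast
    field_simp
    ring

theorem phi_J_iter (g : ℕ) : ∀ (z : ℝ) (_ : 0 ≤ z) (f : ℝ[X]),
    (∏ i ∈ Finset.range g, (z + i + 1)) * phi z (J^[g] f) = phi (z + g) f := by
  induction g with
  | zero => intro z _ f; simp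
  | succ g ih =>
    intro z hz f
    rw [Function.iterate_succ_apply', phi_J z hz, Finset.prod_range_succ']
    have h1 := ih (z + 1) (by positivity) f
    have h2 : z + 1 ≠ 0 := by positivity
    have h3 : ∏ i ∈ Finset.range g, (z + 1 + i + 1) = ∏ i ∈ Finset.range g, (z + ((i + 1 : ℕ) : ℝ) + 1) := by
      refine Finset.prod_congr rfl fun i _ => ?_
      push_cast
      ring
    rw [h3] at h1
    have h4 : z + 1 + (g : ℝ) = z + ((g + 1 : ℕ) : ℝ) := by push_cast; ring
    rw [h4] at h1
    rw [← h1]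
    push_cast
    field_simp
    ring

/-! ### Degrees -/

theorem natDegree_anti (f : ℝ[X]) (n : ℕ) (h : f.natDegree ≤ n) : (anti f).natDegree ≤ n + 1 := by
  unfold anti
  refine natDegree_sum_le_of_forall_le _ _ fun l hl => ?_
  refine (natDegree_monomial_le _).trans ?_
  have := le_natDegree_of_mem_supp l hl
  omega

theorem natDegree_J (f : ℝ[X]) (n : ℕ) (h : f.natDegree ≤ n) : (J f).natDegree ≤ n + 1 := by
  unfold J
  refine (natDegree_sub_le _ _).trans (max_le ?_ (natDegree_anti f n h))
  rw [natDegree_C]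
  omega

theorem natDegree_J_iter (f : ℝ[X]) (n : ℕ) (h : f.natDegree ≤ n) (g : ℕ) :
    (J^[g] f).natDegree ≤ n + g := by
  induction g with
  | zero => simpa using h
  | succ g ih =>
    rw [Function.iterate_succ_apply']
    exact natDegree_J _ _ ih

theorem natDegree_one_sub_X : (1 - X : ℝ[X]).natDegree = 1 := by
  have h : (1 - X : ℝ[X]) = -(X - C 1) := by simp
  rw [h, natDegree_neg, natDegree_X_sub_C]

theorem natDegree_nxt (j : ℕ) (ρ : ℝ[X]) (h : ρ.natDegree < j) (g : ℕ) :
    (nxt j ρ g).natDegree < j + g := by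
  unfold nxt
  have h1 := natDegree_J_iter ρ (j - 1) (by omega) g
  have h2 : ((J^[g] ρ).comp (1 - X) - J^[g] ρ).natDegree ≤ j - 1 + g := by
    refine (natDegree_sub_le _ _).trans (max_le ?_ h1)
    rw [natDegree_comp, natDegree_one_sub_X, mul_one]
    exact h1
  have h3 := (natDegree_C_mul_le (((j + g).factorial : ℝ) / (j.factorial : ℝ))
    ((J^[g] ρ).comp (1 - X) - J^[g] ρ)).trans h2
  omega

/-! ### The representation for `z ≥ 0` -/

theorem sum_erase (m : ℕ) (f : ℝ[X]) (h : f.natDegree < m) (z : ℝ) (hz : 0 ≤ z) :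
    ∑ l ∈ Finset.range m, f.coeff l * ∏ i ∈ (Finset.range m).erase l, (z + i + 1) =
      (∏ i ∈ Finset.range m, (z + i + 1)) * phi z f := by
  rw [phi_apply, Polynomial.sum_over_range' _ (by simp) m h, Finset.mul_sum]
  refine Finset.sum_congr rfl fun l hl => ?_
  rw [← Finset.mul_prod_erase _ _ hl]
  have : z + l + 1 ≠ 0 := by positivity
  field_simp

theorem rep_iff (m : ℕ) (P ρ : ℝ[X]) : Rep m P ρ ↔ ρ.natDegree < m ∧ ∀ z : ℝ, 0 ≤ z →
    P.eval (m + z) * (m.factorial : ℝ) = (∏ i ∈ Finset.range m, (z + i + 1)) * phi z ρ := by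
  constructor
  · rintro ⟨h1, h2⟩
    refine ⟨h1, fun z hz => ?_⟩
    rw [h2 z, sum_erase m ρ h1 z hz]
  · rintro ⟨h1, h2⟩
    refine ⟨h1, ?_⟩
    have key : P.comp (C (m : ℝ) + X) * C (m.factorial : ℝ) =
        ∑ l ∈ Finset.range m, C (ρ.coeff l) * ∏ i ∈ (Finset.range m).erase l,
          (X + C (i : ℝ) + 1) := by
      apply Polynomial.eq_of_infinite_eval_eq
      refine Set.Infinite.mono ?_ (Set.Ici_infinite (0 : ℝ))
      intro z hz
      have hz' : 0 ≤ z := hz
      simp only [Set.mem_ofPred_eq, eval_mul, eval_comp, eval_add, eval_C, eval_X, eval_finsetSum,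
        eval_prod, eval_one]
      rw [h2 z hz', ← sum_erase m ρ h1 z hz']
    intro z
    have := congrArg (Polynomial.eval z) key
    simpa only [eval_mul, eval_comp, eval_add, eval_C, eval_X, eval_finsetSum,
        eval_prod, eval_one] using this

theorem prod_fact (j g : ℕ) : ((j + g).factorial : ℝ) =
    (g.factorial : ℝ) * ∏ i ∈ Finset.range j, ((g : ℝ) + i + 1) := by
  induction j with
  | zero => simp
  | succ j ih =>
    rw [Finset.prod_range_succ, ← mul_assoc, ← ih, show j + 1 + g = (j + g) + 1 by ring,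
      Nat.factorial_succ]
    push_cast
    ring

theorem prod_fact' (g : ℕ) : (g.factorial : ℝ) = ∏ i ∈ Finset.range g, ((0 : ℝ) + i + 1) := by
  have := prod_fact g 0
  simpa using this

theorem binX_eval (n : ℕ) (z : ℝ) : (binX n).eval ((n + 1 : ℕ) + z) * ((n + 1).factorial : ℝ) =
    (n + 1 : ℕ) * ∏ i ∈ Finset.range n, (z + ((i + 1 : ℕ) : ℝ) + 1) := by
  unfold binX
  rw [eval_mul, eval_C, eval_prod, Nat.factorial_succ]
  have h : ∏ i ∈ Finset.range n, (X - C (i : ℝ)).eval (((n + 1 : ℕ) : ℝ) + z) =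
      ∏ i ∈ Finset.range n, (z + ((i + 1 : ℕ) : ℝ) + 1) := by
    rw [← Finset.prod_range_reflect]
    refine Finset.prod_congr rfl fun i hi => ?_
    rw [Finset.mem_range] at hi
    rw [eval_sub, eval_X, eval_C]
    have : ((n - 1 - i : ℕ) : ℝ) = (n : ℝ) - 1 - i := by
      rw [Nat.sub_sub, Nat.cast_sub (by omega)]
      push_cast
      ring
    rw [this]
    push_cast
    ring
  rw [h]
  have : (n.factorial : ℝ) ≠ 0 := by positivity
  push_cast
  field_simp

theorem stStep : StStep := by
  intro j P ρ hR hanti g hg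
  have hR' := (rep_iff j P ρ).1 hR
  induction g, hg using Nat.le_induction with
  | base =>
    have h1 : nxt j ρ 1 = 0 := by
      unfold nxt
      rw [Function.iterate_one, J_symm ρ hanti]
      simp
    rw [h1]
    refine ⟨by simp, fun z => ?_⟩
    simp [stp]
  | succ g hg ih =>
    rw [rep_iff] at ih ⊢
    refine ⟨natDegree_nxt j ρ hR.1 (g + 1), fun z hz => ?_⟩
    obtain ⟨g', rfl⟩ : ∃ g', g = g' + 1 := ⟨g - 1, by omega⟩
    set g := g' + 1 with hgdef
    have hstp : stp P j (g + 1) = C (P.eval ((j + g : ℕ) : ℝ)) * binX (j + g) - 2 * P - stp P j g := rfl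
    set A := P.eval ((j + g : ℕ) : ℝ) with hA
    have hjf : (j.factorial : ℝ) ≠ 0 := by positivity
    have hgf : (g.factorial : ℝ) ≠ 0 := by positivity
    -- value of `F_(g+1)` at `0`
    have hF0 : (j.factorial : ℝ) * A = ((j + g).factorial : ℝ) * (J^[g + 1] ρ).eval 0 := by
      have e1 := hR'.2 (g : ℝ) (by positivity)
      have e2 : (J^[g + 1] ρ).eval 0 = phi 0 (J^[g] ρ) := by
        rw [Function.iterate_succ_apply', J_eval_zero]
      have e3 := phi_J_iter g 0 le_rfl ρ
      rw [← prod_fact', zero_add] at e3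
      rw [e2, prod_fact j g]
      have e4 : A = P.eval ((j : ℝ) + g) := by rw [hA]; push_cast; rfl
      rw [e4, mul_comm, e1, ← e3]
      ring
    -- recursion for the densities
    have hnxt : nxt j ρ (g + 1) = C (((j + g + 1 : ℕ) : ℝ) * A) -
        C (2 * (((j + (g + 1)).factorial : ℝ) / (j.factorial : ℝ))) * J^[g + 1] ρ -
        C ((j + g + 1 : ℕ) : ℝ) * J (nxt j ρ g) := by
      have e1 : J (nxt j ρ g) = C (((j + g).factorial : ℝ) / (j.factorial : ℝ)) *
          (C ((J^[g + 1] ρ).eval 0) - (J^[g + 1] ρ).comp (1 - X) - J^[g + 1] ρ) := by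
        have e0 : J^[g + 1] ρ = J (J^[g] ρ) := Function.iterate_succ_apply' _ _ _
        unfold nxt
        rw [J_C_mul, J_sub, J_refl, e0]
      have e2 : ((j + (g + 1)).factorial : ℝ) / (j.factorial : ℝ) =
          ((j + g + 1 : ℕ) : ℝ) * (((j + g).factorial : ℝ) / (j.factorial : ℝ)) := by
        rw [show j + (g + 1) = (j + g) + 1 by ring, Nat.factorial_succ]
        push_cast
        ring
      have e3 : A = ((j + g).factorial : ℝ) / (j.factorial : ℝ) * (J^[g + 1] ρ).eval 0 := by
        field_simp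
        linarith
      rw [e1]
      unfold nxt
      rw [e2, e3]
      simp only [C_mul]
      have e4 : (C (2 : ℝ) : ℝ[X]) = 2 := map_ofNat C 2
      rw [e4]
      ring
    rw [hnxt, hstp, map_sub, map_sub, phi_C, phi_C_mul, phi_C_mul, phi_J z hz]
    simp only [eval_sub, eval_mul, eval_C]
    -- the three terms
    have hz1 : z + 1 ≠ 0 := by positivity
    have t1 := binX_eval (j + g) z
    have t2 := hR'.2 (z + (g + 1 : ℕ)) (by positivity)
    have t2' := phi_J_iter (g + 1) z hz ρ
    have t3 := ih.2 (z + 1) (by positivity)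
    have hsplit1 : ∏ i ∈ Finset.range (j + (g + 1)), (z + i + 1) =
        (∏ i ∈ Finset.range (j + g), (z + ((i + 1 : ℕ) : ℝ) + 1)) * (z + 1) := by
      rw [show j + (g + 1) = (j + g) + 1 by ring, Finset.prod_range_succ']
      simp
    have hsplit2 : ∏ i ∈ Finset.range (j + (g + 1)), (z + i + 1) =
        (∏ i ∈ Finset.range (g + 1), (z + i + 1)) *
          ∏ i ∈ Finset.range j, (z + ((g + 1 : ℕ) : ℝ) + i + 1) := by
      rw [show j + (g + 1) = (g + 1) + j by ring, Finset.prod_range_add]
      congr 1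
      refine Finset.prod_congr rfl fun i _ => ?_
      push_cast
      ring
    have h3' : ∏ i ∈ Finset.range (j + g), (z + 1 + (i : ℝ) + 1) =
        ∏ i ∈ Finset.range (j + g), (z + ((i + 1 : ℕ) : ℝ) + 1) := by
      refine Finset.prod_congr rfl fun i _ => ?_
      push_cast
      ring
    rw [h3'] at t3
    have hfac : ((j + (g + 1)).factorial : ℝ) = ((j + g + 1 : ℕ) : ℝ) * ((j + g).factorial : ℝ) := by
      rw [show j + (g + 1) = (j + g) + 1 by ring, Nat.factorial_succ]
      push_cast
      ring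
    have x1 : ((j + (g + 1) : ℕ) : ℝ) + z = ((j + g + 1 : ℕ) : ℝ) + z := by push_cast; ring
    have x2 : ((j + (g + 1) : ℕ) : ℝ) + z = (j : ℝ) + (z + ((g + 1 : ℕ) : ℝ)) := by push_cast; ring
    have x3 : ((j + (g + 1) : ℕ) : ℝ) + z = ((j + g : ℕ) : ℝ) + (z + 1) := by push_cast; ring
    have y1 : A * (binX (j + g)).eval (((j + (g + 1) : ℕ) : ℝ) + z) * ((j + (g + 1)).factorial : ℝ) =
        (∏ i ∈ Finset.range (j + (g + 1)), (z + i + 1)) *
          ((z + 1)⁻¹ * (((j + g + 1 : ℕ) : ℝ) * A)) := by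
      rw [x1, hsplit1]
      have : ((j + (g + 1)).factorial : ℝ) = ((j + g + 1).factorial : ℝ) := by
        rw [show j + (g + 1) = j + g + 1 by ring]
      rw [this, mul_assoc, t1]
      field_simp
    have y2 : P.eval (((j + (g + 1) : ℕ) : ℝ) + z) * ((j + (g + 1)).factorial : ℝ) =
        (∏ i ∈ Finset.range (j + (g + 1)), (z + i + 1)) *
          ((((j + (g + 1)).factorial : ℝ) / (j.factorial : ℝ)) * phi z (J^[g + 1] ρ)) := by
      rw [x2, hsplit2]
      have e : P.eval ((j : ℝ) + (z + ((g + 1 : ℕ) : ℝ))) =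
          (∏ i ∈ Finset.range j, (z + ((g + 1 : ℕ) : ℝ) + i + 1)) * phi (z + (g + 1 : ℕ)) ρ /
            (j.factorial : ℝ) := by
        rw [eq_div_iff hjf]; exact t2
      rw [e, ← t2']
      field_simp
    have y3 : (stp P j g).eval (((j + (g + 1) : ℕ) : ℝ) + z) * ((j + (g + 1)).factorial : ℝ) =
        (∏ i ∈ Finset.range (j + (g + 1)), (z + i + 1)) *
          (((j + g + 1 : ℕ) : ℝ) * ((z + 1)⁻¹ * phi (z + 1) (nxt j ρ g))) := by
      rw [x3, hsplit1, hfac]
      calc (stp P j g).eval (((j + g : ℕ) : ℝ) + (z + 1)) * (((j + g + 1 : ℕ) : ℝ) *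
            ((j + g).factorial : ℝ)) = ((j + g + 1 : ℕ) : ℝ) *
            ((stp P j g).eval (((j + g : ℕ) : ℝ) + (z + 1)) * ((j + g).factorial : ℝ)) := by ring
        _ = _ := by
            rw [t3]
            field_simp
    have e2 : (2 : ℝ[X]).eval (((j + (g + 1) : ℕ) : ℝ) + z) = 2 := by
      have : (2 : ℝ[X]) = C 2 := (map_ofNat C 2).symm
      rw [this, eval_C]
    rw [e2]
    linear_combination y1 - 2 * y2 - y3

end Pool.Agent.R868.PK
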